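import Pool.Agent.R855.Nil.Label

/-!
# MP_12bcff_ag: a geometrically nilpotent, non-nilpotent curve for a two-variable map

For every finite field `F` the line `x = 0` is geometrically nilpotent but not nilpotent for the
polynomial map `T(x,y) = (y, xy + y^2)`.

The reason is the following.  `T` is injective outside the line `y = 0`, which is contracted to
the origin, and the points `(0,s)`, `s ≠ 0`, are not in the image of `T`.  The orbit of such a
point is finite; if it never met the line `y = 0` then `T` would be a permutation of the orbit and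
the starting point would be in the image of `T`.
-/

namespace Pool.Agent.Results.MP_12bcff_ag.TwoVariables

open MvPolynomial R855.Nil

/-- The closed subvariety `V(I)` (nonempty, possibly reducible) is geometrically nilpotent for
`T`: there is a point `P` with `T(P) = P` such that every geometric point of `V(I)` is sent to `P`
by some iterate. -/
def GeomNilp {F : Type} [Field F] {N : ℕ} (T : Fin N → MvPolynomial (Fin N) F)
    (I : Ideal (MvPolynomial (Fin N) F)) : Prop :=
  (pts I).Nonempty ∧ ∃ P : Fin N → AlgebraicClosure F, act T P = P ∧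
    ∀ y ∈ pts I, ∃ k : ℕ, 1 ≤ k ∧ (act T)^[k] y = P

/-- The closed subvariety `V(I)` is nilpotent for `T`: there are a point `P` with `T(P) = P` and
`k ≥ 1` such that the `k`-th iterate sends `V(I)` to `{P}`. -/
def Nilp {F : Type} [Field F] {N : ℕ} (T : Fin N → MvPolynomial (Fin N) F)
    (I : Ideal (MvPolynomial (Fin N) F)) : Prop :=
  ∃ P : Fin N → AlgebraicClosure F, act T P = P ∧
    ∃ k : ℕ, 1 ≤ k ∧ (act T)^[k] '' pts I = {P}

/-- the map on pairs -/
def tt {R : Type} [CommRing R] (p : R × R) : R × R := (p.2, p.1 * p.2 + p.2 ^ 2)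

/-- pairs as vectors -/
def v2 {R : Type} (p : R × R) : Fin 2 → R := ![p.1, p.2]

theorem v2_inj {R : Type} {p p' : R × R} (h : v2 p = v2 p') : p = p' :=
  Prod.ext (by simpa [v2] using congrFun h 0) (by simpa [v2] using congrFun h 1)

section

variable {F : Type} [Field F]

/-- the two-variable map `T(x,y) = (y, xy + y^2)` -/
noncomputable def T2 (F : Type) [Field F] : Fin 2 → MvPolynomial (Fin 2) F :=
  ![X 1, X 0 * X 1 + X 1 ^ 2]

theorem act_T2 (p : AlgebraicClosure F × AlgebraicClosure F) :
    act (T2 F) (v2 p) = v2 (tt p) := by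
  funext i
  fin_cases i <;> simp [act, T2, v2, tt]

theorem iter_T2 (n : ℕ) (p : AlgebraicClosure F × AlgebraicClosure F) :
    (act (T2 F))^[n] (v2 p) = v2 (tt^[n] p) := by
  induction n with
  | zero => rfl
  | succ n ih =>
    rw [Function.iterate_succ_apply', ih, act_T2, Function.iterate_succ_apply']

theorem mem_line {y : Fin 2 → AlgebraicClosure F} :
    y ∈ pts (Ideal.span {X 0} : Ideal (MvPolynomial (Fin 2) F)) ↔ ∃ s, y = v2 (0, s) := by
  rw [pts, zeroLocus_span, Set.mem_ofPred_eq]
  constructor
  · intro h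
    have h1 := h (X 0) rfl
    rw [aeval_X] at h1
    refine ⟨y 1, ?_⟩
    funext i
    fin_cases i <;> simp [v2, h1]
  · rintro ⟨s, rfl⟩ p hp
    rw [Set.mem_singleton_iff] at hp
    subst hp
    simp [v2]

end

section dynamics

variable {K : Type} [Field K]

theorem tt_zero : tt ((0, 0) : K × K) = (0, 0) := by simp [tt]

theorem tt_of_snd {p : K × K} (h : p.2 = 0) : tt p = (0, 0) := by simp [tt, h]

theorem tt_inj {p p' : K × K} (h : p.2 ≠ 0) (heq : tt p = tt p') : p = p' := by
  simp only [tt, Prod.mk.injEq] at heq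
  obtain ⟨h1, h2⟩ := heq
  rw [← h1] at h2
  have h3 : p.1 * p.2 = p'.1 * p.2 := by linear_combination h2
  exact Prod.ext (mul_right_cancel₀ h h3) h1

/-- if the orbit of `(0,s)` never meets the line `y = 0` then it is infinite -/
theorem orbit_injective {s : K} (h : ∀ n, (tt^[n] ((0 : K), s)).2 ≠ 0) :
    Function.Injective (fun n => tt^[n] ((0 : K), s)) := by
  have key : ∀ i j : ℕ, i < j → tt^[i] ((0 : K), s) ≠ tt^[j] ((0 : K), s) := by
    intro i
    induction i with
    | zero =>
      intro j hj heq
      obtain ⟨j, rfl⟩ : ∃ j', j = j' + 1 := ⟨j - 1, by omega⟩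
      rw [Function.iterate_succ_apply', Function.iterate_zero, id] at heq
      have h1 : (0 : K) = (tt^[j] ((0 : K), s)).2 := congrArg Prod.fst heq
      exact h j h1.symm
    | succ i ih =>
      intro j hj heq
      obtain ⟨j, rfl⟩ : ∃ j', j = j' + 1 := ⟨j - 1, by omega⟩
      rw [Function.iterate_succ_apply', Function.iterate_succ_apply'] at heq
      exact ih j (by omega) (tt_inj (h i) heq)
  intro i j hij
  rcases lt_trichotomy i j with h1 | h1 | h1
  · exact absurd hij (key i j h1)
  · exact h1
  · exact absurd hij.symm (key j i h1)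

/-- every point of the line `x = 0` reaches the origin -/
theorem reaches_zero {Q : ℕ} (hF : Fr K Q) (s : K) :
    ∃ k : ℕ, 1 ≤ k ∧ tt^[k] ((0 : K), s) = (0, 0) := by
  by_contra hno
  push Not at hno
  have h : ∀ n, (tt^[n] ((0 : K), s)).2 ≠ 0 := by
    intro n h0
    apply hno (n + 1) (by omega)
    rw [Function.iterate_succ_apply', tt_of_snd h0]
  obtain ⟨m, hm, hper⟩ := hF.per s
  have hfin : {x : K | x = 1 * x ^ Q ^ m + 0}.Finite := fin1 (hF.two_le_pow hm) 1 0
  have hmem : ∀ n, tt^[n] ((0 : K), s) ∈
      {x : K | x = 1 * x ^ Q ^ m + 0} ×ˢ {x : K | x = 1 * x ^ Q ^ m + 0} := by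
    intro n
    induction n with
    | zero =>
      refine ⟨?_, ?_⟩
      · simp only [Function.iterate_zero, id, Set.mem_ofPred_eq]
        rw [hF.zero, mul_zero, add_zero]
      · simp only [Function.iterate_zero, id, Set.mem_ofPred_eq]
        rw [hper, one_mul, add_zero]
    | succ n ih =>
      obtain ⟨h1, h2⟩ := ih
      simp only [Set.mem_ofPred_eq] at h1 h2
      rw [one_mul, add_zero] at h1 h2
      rw [Function.iterate_succ_apply']
      refine ⟨?_, ?_⟩
      · simp only [tt, Set.mem_ofPred_eq]
        rw [one_mul, add_zero]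
        exact h2
      · simp only [tt, Set.mem_ofPred_eq]
        rw [one_mul, add_zero, hF.add, mul_pow, ← h1, ← h2, ← pow_mul, mul_comm 2, pow_mul, ← h2]
  exact Set.infinite_of_injective_forall_mem (orbit_injective h) hmem (hfin.prod hfin)

/-- the orbit of the generic point of the line -/
noncomputable def pq (K : Type) [Field K] (n : ℕ) : Polynomial K × Polynomial K :=
  tt^[n] (0, Polynomial.X)

theorem pq_degree (n : ℕ) : (pq K n).2.degree = ((2 ^ n : ℕ) : WithBot ℕ) ∧
    (pq K n).1.degree < (pq K n).2.degree := by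
  induction n with
  | zero => simp [pq]
  | succ n ih =>
    obtain ⟨h1, h2⟩ := ih
    have e : pq K (n + 1) = tt (pq K n) := by
      simp only [pq]
      rw [Function.iterate_succ_apply']
    have hd : (tt (pq K n)).2.degree = ((2 ^ (n + 1) : ℕ) : WithBot ℕ) := by
      have e2 : (tt (pq K n)).2 = ((pq K n).1 + (pq K n).2) * (pq K n).2 := by
        simp only [tt]
        ring
      rw [e2, Polynomial.degree_mul, Polynomial.degree_add_eq_right_of_degree_lt h2, h1,
        ← Nat.cast_add]
      congr 1
      ring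
    rw [e]
    refine ⟨hd, ?_⟩
    rw [hd]
    simp only [tt]
    rw [h1, Nat.cast_lt]
    exact Nat.pow_lt_pow_right (by norm_num) (by omega)

theorem eval_pq (s : K) (n : ℕ) : tt^[n] ((0 : K), s) =
    (Polynomial.eval s (pq K n).1, Polynomial.eval s (pq K n).2) := by
  induction n with
  | zero => simp [pq]
  | succ n ih =>
    have e : pq K (n + 1) = tt (pq K n) := by
      simp only [pq]
      rw [Function.iterate_succ_apply']
    rw [Function.iterate_succ_apply', ih, e]
    simp [tt]

theorem not_uniform [Infinite K] (n : ℕ) : ∃ s : K, tt^[n] ((0 : K), s) ≠ (0, 0) := by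
  by_contra hno
  push Not at hno
  have hz : (pq K n).2 = 0 := by
    apply Polynomial.funext
    intro s
    have h1 := hno s
    rw [eval_pq] at h1
    rw [Polynomial.eval_zero]
    exact congrArg Prod.snd h1
  have h2 := (pq_degree (K := K) n).1
  rw [hz, Polynomial.degree_zero] at h2
  exact WithBot.bot_ne_coe h2

end dynamics

/-- **Two variables suffice.**  For every finite field `F` the line `x = 0` in the affine plane is
geometrically nilpotent but not nilpotent for the polynomial map `T(x,y) = (y, xy + y^2)`. -/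
theorem result (F : Type) [Field F] [Finite F] :
    GeomNilp (![X 1, X 0 * X 1 + X 1 ^ 2] : Fin 2 → MvPolynomial (Fin 2) F) (Ideal.span {X 0}) ∧
    ¬ Nilp (![X 1, X 0 * X 1 + X 1 ^ 2] : Fin 2 → MvPolynomial (Fin 2) F)
      (Ideal.span {X 0}) := by
  have hF := fr_card (F := F) 0
  have hinf : Infinite (AlgebraicClosure F) := IsAlgClosed.instInfinite
  have hfix : act (T2 F) (v2 (0, 0)) = v2 (0, 0) := by rw [act_T2, tt_zero]
  refine ⟨⟨⟨v2 (0, 0), mem_line.2 ⟨0, rfl⟩⟩, v2 (0, 0), hfix, ?_⟩, ?_⟩
  · intro y hy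
    obtain ⟨s, rfl⟩ := mem_line.1 hy
    obtain ⟨k, hk, h⟩ := reaches_zero hF s
    refine ⟨k, hk, ?_⟩
    have h1 := iter_T2 (F := F) k (0, s)
    rw [h] at h1
    exact h1
  · rintro ⟨P, -, k, -, himg⟩
    have h0 : P = v2 (0, 0) := by
      have h1 : (act (T2 F))^[k] (v2 (0, 0)) ∈ ({P} : Set (Fin 2 → AlgebraicClosure F)) := by
        rw [← himg]
        exact ⟨_, mem_line.2 ⟨0, rfl⟩, rfl⟩
      rw [Function.iterate_fixed hfix] at h1
      exact h1.symm
    obtain ⟨s, hs⟩ := not_uniform (K := AlgebraicClosure F) k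
    apply hs
    have h1 : (act (T2 F))^[k] (v2 (0, s)) ∈ ({P} : Set (Fin 2 → AlgebraicClosure F)) := by
      rw [← himg]
      exact ⟨_, mem_line.2 ⟨s, rfl⟩, rfl⟩
    rw [iter_T2, h0] at h1
    exact v2_inj h1

end Pool.Agent.Results.MP_12bcff_ag.TwoVariables
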